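import Pool.Agent.H16.NV.Stm

set_option autoImplicit false

/-!
# Crew NV, part FIN: the assembly
-/

open MeasureTheory Set
open scoped ENNReal NNReal

namespace Pool.Agent.H80.NV

open Pool.Agent.H16.NV

theorem t_FIN (hAFF : S_AFF) (hOUT : S_OUT) (hMPE : S_MPE) (hCMP : S_CMP) (hIND : S_IND)
    (hHUL : S_HUL) : S_FIN := by
  intro n p hp v hv
  obtain ⟨d, A, hd, hK⟩ := hHUL n v hv
  have hcK : IsCompact (convexHull ℝ (range v)) := (finite_range v).isCompact_convexHull ℝ
  have hvK : volume (convexHull ℝ (range v)) ≠ 0 := by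
    have h1 := isOpen_interior.measure_pos volume hv
    exact (h1.trans_le (measure_mono interior_subset)).ne'
  obtain ⟨hcK', -⟩ := (hCMP n).2 d hd
  have e1 : Mp p (convexHull ℝ (range v)) = Fu p (convexHull ℝ (range v)) 0 := by
    have h := hMPE n p hp _ hcK hvK 0
    have h2 : (fun z : Fin n → ℝ => z - 0) '' (convexHull ℝ (range v)) = convexHull ℝ (range v) := by
      simp
    rw [h2] at h
    exact h
  have e2 : Fu p (convexHull ℝ (range v)) 0 = Fu p (Kb d) (A.symm 0) := by
    rw [hK]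
    have h := hAFF n p hp (Kb d) hcK'.measurableSet A (A.symm 0)
    rwa [A.apply_symm_apply] at h
  obtain ⟨ξ', hξ'⟩ := hIND n p hp d hd (A.symm 0)
  rw [e1, e2]
  by_cases hmem : ξ' ∈ Simp n
  · refine (iInf₂_le ξ' hmem).trans ?_
    rw [hMPE n p hp _ (hCMP n).1.1 (hCMP n).1.2 ξ']
    exact hξ'
  · have h1 : Fu p (Simp n) ξ' = ∞ := by
      unfold Fu
      rw [hOUT n p hp ξ' hmem, ENNReal.mul_top]
      intro h0
      rw [ENNReal.rpow_eq_zero_iff] at h0
      rcases h0 with h0 | h0
      · exact (hCMP n).1.2 h0.1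
      · have : 0 < 1 + 1 / p := by positivity
        linarith [h0.2]
    rw [h1, top_le_iff] at hξ'
    rw [hξ']
    exact le_top

end Pool.Agent.H80.NV
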