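import Pool.Agent.H16.NV.Stm

set_option autoImplicit false

/-!
# Crew NV, part IND: induction on the number of positive coordinates
-/

open MeasureTheory Set
open scoped ENNReal NNReal

namespace Pool.Agent.H80.NV

open Pool.Agent.H16.NV

/-- the number of positive coordinates -/
noncomputable def pos {k : ℕ} (d : Fin k → ℝ) : ℕ := (Finset.univ.filter fun a => 0 < d a).card

lemma pos_perm {k : ℕ} (d : Fin k → ℝ) (σ : Equiv.Perm (Fin k)) : pos (d ∘ σ) = pos d := by
  unfold pos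
  refine Finset.card_bij (fun a _ => σ a) ?_ ?_ ?_
  · intro a ha
    simpa using ha
  · intro a _ b _ h
    exact σ.injective h
  · intro b hb
    exact ⟨σ.symm b, by simpa using hb, by simp⟩

lemma exists_perm {k : ℕ} {i j : Fin (k + 2)} (hij : i ≠ j) :
    ∃ σ : Equiv.Perm (Fin (k + 2)), σ 0 = i ∧ σ 1 = j := by
  set τ : Equiv.Perm (Fin (k + 2)) := Equiv.swap 0 i with hτ
  refine ⟨τ * Equiv.swap 1 (τ j), ?_, ?_⟩
  · have h1 : (0 : Fin (k + 2)) ≠ τ j := by
      intro h
      have h2 : τ i = τ j := by rw [← h, hτ, Equiv.swap_apply_right]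
      exact hij (τ.injective h2)
    rw [Equiv.Perm.mul_apply, Equiv.swap_apply_of_ne_of_ne (by simp) h1, hτ,
      Equiv.swap_apply_left]
  · rw [Equiv.Perm.mul_apply, Equiv.swap_apply_left, hτ, Equiv.swap_apply_self]

lemma cm_zero {m : ℕ} (b : (Fin m → ℝ) → ℝ) (K : Set (Fin (m + 1) → ℝ)) : cm b 0 '' K = K := by
  have : cm b 0 = id := by
    funext x
    unfold cm
    rw [zero_mul, add_zero, Fin.cons_self_tail]
    rfl
  rw [this, image_id]

/-- the moved coordinates -/
def mv {m : ℕ} (d : Fin (m + 2) → ℝ) (s : ℝ) : Fin (m + 2) → ℝ :=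
  Function.update (Function.update d 0 (d 0 - s)) 1 (d 1 + s)

lemma mv_zero {m : ℕ} (d : Fin (m + 2) → ℝ) (s : ℝ) : mv d s 0 = d 0 - s := by
  unfold mv
  rw [Function.update_of_ne (by simp), Function.update_self]

lemma mv_one {m : ℕ} (d : Fin (m + 2) → ℝ) (s : ℝ) : mv d s 1 = d 1 + s := by
  unfold mv
  rw [Function.update_self]

lemma mv_other {m : ℕ} (d : Fin (m + 2) → ℝ) (s : ℝ) {a : Fin (m + 2)} (h0 : a ≠ 0)
    (h1 : a ≠ 1) : mv d s a = d a := by
  unfold mv
  rw [Function.update_of_ne h1, Function.update_of_ne h0]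

lemma mv_sum {m : ℕ} (d : Fin (m + 2) → ℝ) (s : ℝ) : ∑ a, mv d s a = ∑ a, d a := by
  rw [Fin.sum_univ_succ, Fin.sum_univ_succ, Fin.sum_univ_succ (f := d),
    Fin.sum_univ_succ (f := fun a : Fin (m + 1) => d a.succ)]
  have h : ∀ a : Fin m, mv d s a.succ.succ = d a.succ.succ := fun a => by
    apply mv_other
    · exact Fin.succ_ne_zero _
    · intro h
      have : (a.succ.succ : Fin (m + 2)) = Fin.succ 0 := h
      exact Fin.succ_ne_zero _ (Fin.succ_injective _ this)
  simp only [h]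
  have e1 : mv d s (Fin.succ 0) = d 1 + s := mv_one d s
  have e2 : d (Fin.succ 0) = d 1 := rfl
  rw [mv_zero, e1, e2]
  ring

lemma mv_pos_lt {m : ℕ} (d : Fin (m + 2) → ℝ) (s : ℝ) (h0 : 0 < d 0) (h1 : 0 < d 1)
    (hs : d 0 - s = 0 ∨ d 1 + s = 0) : pos (mv d s) < pos d := by
  unfold pos
  rcases hs with hs | hs
  · have hsub : (Finset.univ.filter fun a => 0 < mv d s a) ⊆
        (Finset.univ.filter fun a => 0 < d a).erase 0 := by
      intro a ha
      rw [Finset.mem_filter] at ha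
      rw [Finset.mem_erase, Finset.mem_filter]
      have ha0 : a ≠ 0 := by
        rintro rfl
        rw [mv_zero, hs] at ha
        exact lt_irrefl _ ha.2
      refine ⟨ha0, Finset.mem_univ _, ?_⟩
      by_cases ha1 : a = 1
      · rw [ha1]; exact h1
      · rw [← mv_other d s ha0 ha1]; exact ha.2
    exact (Finset.card_le_card hsub).trans_lt
      (Finset.card_erase_lt_of_mem (by simp [h0]))
  · have hsub : (Finset.univ.filter fun a => 0 < mv d s a) ⊆
        (Finset.univ.filter fun a => 0 < d a).erase 1 := by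
      intro a ha
      rw [Finset.mem_filter] at ha
      rw [Finset.mem_erase, Finset.mem_filter]
      have ha1 : a ≠ 1 := by
        rintro rfl
        rw [mv_one, hs] at ha
        exact lt_irrefl _ ha.2
      refine ⟨ha1, Finset.mem_univ _, ?_⟩
      by_cases ha0 : a = 0
      · rw [ha0]; exact h0
      · rw [← mv_other d s ha0 ha1]; exact ha.2
    exact (Finset.card_le_card hsub).trans_lt
      (Finset.card_erase_lt_of_mem (by simp [h1]))

theorem t_IND (hKEY : S_KEY) (hVOL : S_VOL) (hAFF : S_AFF) (hGEO : S_GEO) (hSPC : S_SPC)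
    (hPER : S_PER) (hONE : S_ONE) (hCMP : S_CMP) : S_IND := by
  intro n p hp
  suffices H : ∀ k : ℕ, ∀ d : Fin (n + 1) → ℝ, pos d = k → ∑ a, d a = 1 → Good p (Kb d) from
    fun d hd => H _ d rfl hd
  intro k
  induction k using Nat.strong_induction_on with
  | _ k ih =>
  intro d hk hd ξ
  by_cases h2 : ∃ i j : Fin (n + 1), i ≠ j ∧ 0 < d i ∧ 0 < d j
  · obtain ⟨i, j, hij, hi, hj⟩ := h2
    obtain ⟨m, rfl⟩ : ∃ m, n = m + 1 := by
      rcases n with _ | m
      · exact absurd (Fin.ext (by omega)) hij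
      · exact ⟨m, rfl⟩
    obtain ⟨σ, hσ0, hσ1⟩ := exists_perm hij
    obtain ⟨A, hA⟩ := hPER (m + 1) σ
    set d' : Fin (m + 2) → ℝ := d ∘ σ with hd'
    have hd'0 : 0 < d' 0 := by rw [hd', Function.comp_apply, hσ0]; exact hi
    have hd'1 : 0 < d' 1 := by rw [hd', Function.comp_apply, hσ1]; exact hj
    have hsum : ∑ a, d' a = 1 := by
      rw [← hd]
      exact Equiv.sum_comp σ d
    have hpos : pos d' = k := by rw [hd', pos_perm, hk]
    obtain ⟨hcd, -⟩ := (hCMP (m + 1)).2 d hd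
    obtain ⟨hcd', hvd'⟩ := (hCMP (m + 1)).2 d' hsum
    have eA : Fu p (Kb d') (A ξ) = Fu p (Kb d) ξ := by
      rw [← hA d]
      exact hAFF (m + 1) p hp (Kb d) hcd.measurableSet A ξ
    rw [← eA]
    have step : ∀ s : ℝ, 0 ≤ d' 0 - s → 0 ≤ d' 1 + s → (d' 0 - s = 0 ∨ d' 1 + s = 0) →
        ∀ ξ' : Fin (m + 1) → ℝ, In p (cm (spd d') s '' Kb d') ξ' ≤ In p (Kb d') (A ξ) →
        ∃ ξ'' : Fin (m + 1) → ℝ, Fu p (Simp (m + 1)) ξ'' ≤ Fu p (Kb d') (A ξ) := by
      intro s hs0 hs1 hs ξ' hle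
      have hg := hGEO m d' s hd'0.le hd'1.le hs0 hs1
      have hlt : pos (mv d' s) < k := by rw [← hpos]; exact mv_pos_lt d' s hd'0 hd'1 hs
      obtain ⟨ξ'', h⟩ := ih _ hlt (mv d' s) rfl (by rw [mv_sum, hsum]) ξ'
      refine ⟨ξ'', h.trans ?_⟩
      have e : Kb (mv d' s) = cm (spd d') s '' Kb d' := hg
      have hv := (hVOL m (spd d') (hSPC m d') s (Kb d')).1
      unfold Fu
      rw [e, hv]
      gcongr
    obtain ⟨ξ', h | h⟩ := hKEY m p hp (Kb d') hcd' hvd' (spd d') (hSPC m d') (-d' 1) 0 (d' 0)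
      (by linarith) hd'0.le (A ξ)
    · rw [cm_zero] at h
      exact step (-d' 1) (by linarith) (by linarith) (Or.inr (by ring)) ξ' h
    · rw [cm_zero] at h
      exact step (d' 0) (by linarith) (by linarith) (Or.inl (by ring)) ξ' h
  · push Not at h2
    obtain ⟨i, hi⟩ : ∃ i, 0 < d i := by
      by_contra hno
      push Not at hno
      have := Finset.sum_nonpos (s := Finset.univ) fun a _ => hno a
      linarith
    obtain ⟨A, hA⟩ := hPER n (Equiv.swap 0 i)
    set d' : Fin (n + 1) → ℝ := d ∘ (Equiv.swap 0 i) with hd'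
    have hsum : ∑ a, d' a = 1 := by
      rw [← hd]
      exact Equiv.sum_comp (Equiv.swap 0 i) d
    have hneg : ∀ a, a ≠ 0 → d' a ≤ 0 := by
      intro a ha
      rw [hd', Function.comp_apply]
      apply h2 i _ _ hi
      intro h
      apply ha
      have h3 : Equiv.swap 0 i i = Equiv.swap 0 i (Equiv.swap 0 i a) := congrArg _ h
      rw [Equiv.swap_apply_self, Equiv.swap_apply_right] at h3
      exact h3.symm
    obtain ⟨B, hB⟩ := hONE n d' hsum hneg
    obtain ⟨hcd, -⟩ := (hCMP n).2 d hd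
    refine ⟨B.symm (A ξ), le_of_eq ?_⟩
    rw [← hAFF n p hp (Kb d) hcd.measurableSet A ξ, hA d, ← hd', hB,
      ← hAFF n p hp (Simp n) (hCMP n).1.1.measurableSet B (B.symm (A ξ)), B.apply_symm_apply]

end Pool.Agent.H80.NV
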